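import Mathlib

set_option maxHeartbeats 4000000

namespace H46J

open Finset

/-- in a digraph with out-degrees at most `N` there is a large independent set -/
lemma exists_indep {α : Type*} [DecidableEq α] (R : α → α → Prop) [DecidableRel R] (N : ℕ) :
    ∀ V : Finset α, (∀ i ∈ V, (V.filter (fun l => R i l)).card ≤ N) →
      ∃ I ⊆ V, (∀ i ∈ I, ∀ l ∈ I, i ≠ l → ¬ R i l) ∧ V.card ≤ (2 * N + 1) * I.card := by
  intro V
  induction V using Finset.strongInduction with
  | H V ih =>
    intro hV
    rcases V.eq_empty_or_nonempty with rfl | hne
    · exact ⟨∅, Subset.rfl, by simp, by simp⟩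
    · -- a vertex of small in-degree
      obtain ⟨l0, hl0, hl0N⟩ : ∃ l ∈ V, (V.filter (fun i => R i l)).card ≤ N := by
        by_contra hcon
        push Not at hcon
        have h1 : ∑ l ∈ V, (V.filter (fun i => R i l)).card =
            ∑ i ∈ V, (V.filter (fun l => R i l)).card := by
          simp_rw [card_filter]
          rw [sum_comm]
        have h2 : ∑ i ∈ V, (V.filter (fun l => R i l)).card ≤ ∑ i ∈ V, N := sum_le_sum hV
        have h3 : ∑ l ∈ V, N < ∑ l ∈ V, (V.filter (fun i => R i l)).card :=
          sum_lt_sum_of_nonempty hne (fun l hl => hcon l hl)
        omega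
      set V' := V.filter (fun i => i ≠ l0 ∧ ¬ R i l0 ∧ ¬ R l0 i) with hV'
      have hsub : V' ⊆ V := filter_subset _ _
      have hss : V' ⊂ V := by
        refine ⟨hsub, fun h => ?_⟩
        have := h hl0
        rw [hV', mem_filter] at this
        exact this.2.1 rfl
      obtain ⟨I, hI1, hI2, hI3⟩ := ih V' hss (fun i hi => le_trans
        (card_le_card (filter_subset_filter _ hsub)) (hV i (hsub hi)))
      have hl0I : l0 ∉ I := fun h => by
        have := hI1 h
        rw [hV', mem_filter] at this
        exact this.2.1 rfl
      refine ⟨insert l0 I, ?_, ?_, ?_⟩
      · intro x hx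
        rw [mem_insert] at hx
        rcases hx with rfl | hx
        · exact hl0
        · exact hsub (hI1 hx)
      · intro i hi l hl hil
        rw [mem_insert] at hi hl
        rcases hi with rfl | hi
        · rcases hl with rfl | hl
          · exact absurd rfl hil
          · have := hI1 hl
            rw [hV', mem_filter] at this
            exact this.2.2.2
        · rcases hl with rfl | hl
          · have := hI1 hi
            rw [hV', mem_filter] at this
            exact this.2.2.1
          · exact hI2 i hi l hl hil
      · rw [card_insert_of_notMem hl0I]
        have h4 : V ⊆ V' ∪ ({l0} ∪ (V.filter (fun i => R i l0) ∪ V.filter (fun l => R l0 l))) := by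
          intro x hx
          by_cases h5 : x = l0
          · subst h5; simp
          · by_cases h6 : R x l0
            · simp [hx, h6]
            · by_cases h7 : R l0 x
              · simp [hx, h7]
              · simp [hV', hx, h5, h6, h7]
        have h5 := card_le_card h4
        have h6 := card_union_le V' ({l0} ∪ (V.filter (fun i => R i l0) ∪
          V.filter (fun l => R l0 l)))
        have h7 := card_union_le ({l0} : Finset α) (V.filter (fun i => R i l0) ∪
          V.filter (fun l => R l0 l))
        have h8 := card_union_le (V.filter (fun i => R i l0)) (V.filter (fun l => R l0 l))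
        have h9 := hV l0 hl0
        rw [card_singleton] at h7
        have h10 : (2 * N + 1) * (I.card + 1) = (2 * N + 1) * I.card + (2 * N + 1) := by ring
        omega

end H46J
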