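import Mathlib

/-!
# Signed Johnson and Kneser graphs: the definitions
-/

namespace H46J

/-- `V_{n,k}`: the vectors in `{-1, 0, 1}^n` with exactly `k` nonzero coordinates. -/
def Vtx (n k : ℕ) : Type :=
  {v : Fin n → ℤ // (∀ i, v i = -1 ∨ v i = 0 ∨ v i = 1) ∧ {i | v i ≠ 0}.ncard = k}

/-- The signed Johnson graph `J_±(n, k, t)`: distinct `u, v` are adjacent iff `⟨u, v⟩ = t`. -/
def signedJohnson (n k : ℕ) (t : ℤ) : SimpleGraph (Vtx n k) where
  Adj u v := u ≠ v ∧ ∑ i, u.1 i * v.1 i = t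
  symm := ⟨fun u v h => ⟨h.1.symm, by simpa only [mul_comm] using h.2⟩⟩
  loopless := ⟨fun u h => h.1 rfl⟩

/-- The signed Kneser graph `K_±(n, k, t)`: distinct `u, v` are adjacent iff `⟨u, v⟩ ≤ t`. -/
def signedKneser (n k : ℕ) (t : ℤ) : SimpleGraph (Vtx n k) where
  Adj u v := u ≠ v ∧ ∑ i, u.1 i * v.1 i ≤ t
  symm := ⟨fun u v h => ⟨h.1.symm, by simpa only [mul_comm] using h.2⟩⟩
  loopless := ⟨fun u h => h.1 rfl⟩

end H46J
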