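import Mathlib
import Pool.Agent.H46.J.Defs

set_option maxHeartbeats 4000000

namespace H46J

open Finset
open scoped Classical

/-- the opposite signed point -/
def neg {n : ℕ} (p : Fin n × Bool) : Fin n × Bool := (p.1, !p.2)

@[simp] lemma neg_fst {n : ℕ} (p : Fin n × Bool) : (neg p).1 = p.1 := rfl
@[simp] lemma neg_neg' {n : ℕ} (p : Fin n × Bool) : neg (neg p) = p := by
  rcases p with ⟨i, b⟩; simp [neg]
lemma neg_ne {n : ℕ} (p : Fin n × Bool) : neg p ≠ p := by
  rcases p with ⟨i, b⟩; cases b <;> simp [neg]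

/-- colourings of the pairs of signed points -/
structure Good {n N : ℕ} (c : Fin n × Bool → Fin n × Bool → Fin N) : Prop where
  symm : ∀ p q, p.1 ≠ q.1 → c p q = c q p
  rule : ∀ p q q', p.1 ≠ q.1 → p.1 ≠ q'.1 → c p q = c (neg p) q' → q = q'

/-- colour `x` is used at `p` -/
def Used {n N : ℕ} (c : Fin n × Bool → Fin n × Bool → Fin N) (p : Fin n × Bool) (x : Fin N) :
    Prop := ∃ q, p.1 ≠ q.1 ∧ c p q = x

/-- colour `x` is used at `p` and not at `neg p` -/
def Str {n N : ℕ} (c : Fin n × Bool → Fin n × Bool → Fin N) (p : Fin n × Bool) (x : Fin N) :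
    Prop := Used c p x ∧ ¬ Used c (neg p) x

/-- the exceptional incidences -/
noncomputable def Exc {n N : ℕ} (c : Fin n × Bool → Fin n × Bool → Fin N) :
    Finset (Fin n × Fin N) :=
  univ.filter (fun e => Used c (e.1, true) e.2 ∧ Used c (e.1, false) e.2)

lemma exc_of {n N : ℕ} {c : Fin n × Bool → Fin n × Bool → Fin N} {p : Fin n × Bool} {x : Fin N}
    (h1 : Used c p x) (h2 : Used c (neg p) x) : (p.1, x) ∈ Exc c := by
  unfold Exc
  rw [mem_filter]
  refine ⟨mem_univ _, ?_⟩
  rcases p with ⟨i, b⟩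
  cases b
  · exact ⟨h2, h1⟩
  · exact ⟨h1, h2⟩

lemma used_of_exc {n N : ℕ} {c : Fin n × Bool → Fin n × Bool → Fin N} {p : Fin n × Bool}
    {x : Fin N} (h : (p.1, x) ∈ Exc c) : Used c p x ∧ Used c (neg p) x := by
  unfold Exc at h
  rw [mem_filter] at h
  obtain ⟨_, h1, h2⟩ := h
  rcases p with ⟨i, b⟩
  cases b
  · exact ⟨h2, h1⟩
  · exact ⟨h1, h2⟩

/-- recolouring one pair -/
noncomputable def recol {n N : ℕ} (c : Fin n × Bool → Fin n × Bool → Fin N) (p q : Fin n × Bool)
    (y : Fin N) (a b : Fin n × Bool) : Fin N :=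
  if (a = p ∧ b = q) ∨ (a = q ∧ b = p) then y else c a b

lemma recol_good {n N : ℕ} {c : Fin n × Bool → Fin n × Bool → Fin N} (hc : Good c)
    {p q : Fin n × Bool} (hpq : p.1 ≠ q.1) {y : Fin N} (hp : Str c p y) (hq : Str c q y) :
    Good (recol c p q y) := by
  have hpq' : p ≠ q := fun h => hpq (by rw [h])
  have key : ∀ a b b', ((a = p ∧ b = q) ∨ (a = q ∧ b = p)) → a.1 ≠ b'.1 →
      recol c p q y (neg a) b' ≠ y := by
    rintro a b b' h hab h1
    have h2 : ¬ ((neg a = p ∧ b' = q) ∨ (neg a = q ∧ b' = p)) := by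
      rintro (⟨h3, h4⟩ | ⟨h3, h4⟩)
      · rcases h with ⟨rfl, rfl⟩ | ⟨rfl, rfl⟩
        · exact neg_ne _ h3
        · apply hpq
          rw [← h3]; rfl
      · rcases h with ⟨rfl, rfl⟩ | ⟨rfl, rfl⟩
        · apply hpq
          rw [← h3]; rfl
        · exact neg_ne _ h3
    unfold recol at h1
    rw [if_neg h2] at h1
    rcases h with ⟨rfl, rfl⟩ | ⟨rfl, rfl⟩
    · exact hp.2 ⟨b', hab, h1⟩
    · exact hq.2 ⟨b', hab, h1⟩
  constructor
  · intro a b hab
    unfold recol
    have : ((a = p ∧ b = q) ∨ (a = q ∧ b = p)) ↔ ((b = p ∧ a = q) ∨ (b = q ∧ a = p)) := by tauto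
    by_cases h : (a = p ∧ b = q) ∨ (a = q ∧ b = p)
    · rw [if_pos h, if_pos (this.1 h)]
    · rw [if_neg h, if_neg (fun h' => h (this.2 h')), hc.symm a b hab]
  · intro a b b' hab hab' heq
    by_cases h : (a = p ∧ b = q) ∨ (a = q ∧ b = p)
    · exfalso
      apply key a b b' h hab'
      rw [← heq]
      unfold recol
      rw [if_pos h]
    · by_cases h' : (neg a = p ∧ b' = q) ∨ (neg a = q ∧ b' = p)
      · exfalso
        apply key (neg a) b' b h' (by simpa using hab)
        rw [neg_neg', heq]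
        unfold recol
        rw [if_pos h']
      · unfold recol at heq
        rw [if_neg h, if_neg h'] at heq
        exact hc.rule a b b' hab hab' heq

/-- a good colouring with the fewest exceptional incidences -/
lemma exists_minimal {n N : ℕ} (h : ∃ c : Fin n × Bool → Fin n × Bool → Fin N, Good c) :
    ∃ c : Fin n × Bool → Fin n × Bool → Fin N, Good c ∧
      ∀ p q x, p.1 ≠ q.1 → c p q = x → Used c (neg p) x → ∀ y, Str c q y →
        ¬ Str c p y ∧ ¬ Str c (neg p) y := by
  obtain ⟨c, ⟨hc, -⟩, hmin⟩ := Set.exists_min_image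
    ({c : Fin n × Bool → Fin n × Bool → Fin N | Good c ∧ True})
    (fun c => (Exc c).card) (Set.toFinite _) (by obtain ⟨c, hc⟩ := h; exact ⟨c, hc, trivial⟩)
  have main : ∀ p q x, p.1 ≠ q.1 → c p q = x → Used c (neg p) x → ∀ y, Str c q y →
      ¬ Str c p y := by
    intro p q x hpq hx hux y hqy hpy
    have hg := recol_good hc hpq hpy hqy
    have h1 := hmin _ ⟨hg, trivial⟩
    have hxy : x ≠ y := by
      rintro rfl
      exact hpy.2 hux
    -- used colours do not grow
    have hsub : ∀ r z, Used (recol c p q y) r z → Used c r z := by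
      rintro r z ⟨s, hs, hz⟩
      unfold recol at hz
      split_ifs at hz with h2
      · subst hz
        rcases h2 with ⟨rfl, _⟩ | ⟨rfl, _⟩
        · exact hpy.1
        · exact hqy.1
      · exact ⟨s, hs, hz⟩
    have hnot : ¬ Used (recol c p q y) p x := by
      rintro ⟨s, hs, hz⟩
      unfold recol at hz
      split_ifs at hz with h2
      · exact hxy hz.symm
      · obtain ⟨s', hs', hz'⟩ := hux
        have h3 := hc.rule p s s' hs (by simpa using hs') (by rw [hz, hz'])
        have h4 := hc.rule p q s' hpq (by simpa using hs') (by rw [hx, hz'])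
        apply h2
        left
        exact ⟨rfl, by rw [h3, h4]⟩
    have hlt : (Exc (recol c p q y)).card < (Exc c).card := by
      apply card_lt_card
      refine ⟨?_, ?_⟩
      · intro e he
        unfold Exc at he ⊢
        rw [mem_filter] at he ⊢
        exact ⟨mem_univ _, hsub _ _ he.2.1, hsub _ _ he.2.2⟩
      · intro hcon
        have h2 : (p.1, x) ∈ Exc c := exc_of ⟨q, hpq, hx⟩ hux
        exact hnot (used_of_exc (hcon h2)).1
    omega
  refine ⟨c, hc, ?_⟩
  intro p q x hpq hx hux y hy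
  refine ⟨main p q x hpq hx hux y hy, ?_⟩
  obtain ⟨s, hs, hz⟩ := hux
  have h4 := hc.rule p q s hpq (by simpa using hs) (by rw [hx, hz])
  subst h4
  apply main (neg p) q x (by simpa using hpq) hz _ y hy
  rw [neg_neg']
  exact ⟨q, hpq, hx⟩

/-- the vector of a pair of signed points -/
def vec {n : ℕ} (p q : Fin n × Bool) (i : Fin n) : ℤ :=
  if i = p.1 then (if p.2 then 1 else -1) else if i = q.1 then (if q.2 then 1 else -1) else 0

lemma vec_mem {n : ℕ} {p q : Fin n × Bool} (hpq : p.1 ≠ q.1) :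
    (∀ i, vec p q i = -1 ∨ vec p q i = 0 ∨ vec p q i = 1) ∧ {i | vec p q i ≠ 0}.ncard = 2 := by
  constructor
  · intro i
    unfold vec
    split_ifs <;> simp
  · have : {i | vec p q i ≠ 0} = {p.1, q.1} := by
      ext i
      simp only [Set.mem_ofPred_eq, Set.mem_insert_iff, Set.mem_singleton_iff]
      unfold vec
      split_ifs <;> simp_all
    rw [this, Set.ncard_pair hpq]

/-- from colourings of the Kneser graph to good colourings -/
lemma exists_good {n N : ℕ} (hN : 0 < N) (h : (signedKneser n 2 (-1)).Colorable N) :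
    ∃ c : Fin n × Bool → Fin n × Bool → Fin N, Good c := by
  obtain ⟨C⟩ := h
  refine ⟨fun p q => if hpq : p.1 ≠ q.1 then C ⟨vec p q, vec_mem hpq⟩ else ⟨0, hN⟩, ?_, ?_⟩
  · intro p q hpq
    simp only [dif_pos hpq, dif_pos hpq.symm]
    congr 1
    apply Subtype.ext
    funext i
    simp only
    unfold vec
    by_cases h1 : i = p.1
    · have h2 : i ≠ q.1 := fun h => hpq (by rw [← h1, ← h])
      rw [if_pos h1, if_neg h2, if_pos h1]
    · rw [if_neg h1, if_neg h1]
  · intro p q q' hpq hpq' heq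
    have hpq'' : (neg p).1 ≠ q'.1 := by simpa using hpq'
    simp only [dif_pos hpq, dif_pos hpq''] at heq
    have hnadj : ¬ (signedKneser n 2 (-1)).Adj ⟨vec p q, vec_mem hpq⟩
        ⟨vec (neg p) q', vec_mem hpq''⟩ := fun hadj => C.valid hadj heq
    have hne : (⟨vec p q, vec_mem hpq⟩ : Vtx n 2) ≠ ⟨vec (neg p) q', vec_mem hpq''⟩ := by
      intro h1
      have h2 := congrFun (congrArg Subtype.val h1) p.1
      simp only at h2
      unfold vec neg at h2
      simp only [if_true] at h2
      cases hb : p.2 <;> simp [hb] at h2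
    have hsum : ¬ (∑ i, vec p q i * vec (neg p) q' i ≤ -1) := fun h => hnadj ⟨hne, h⟩
    have h5 : ∑ i, vec p q i * vec (neg p) q' i =
        ∑ i ∈ ({p.1, q.1} : Finset _), vec p q i * vec (neg p) q' i := by
      symm
      apply sum_subset (subset_univ _)
      intro i _ hi
      have : vec p q i = 0 := by
        unfold vec
        rw [mem_insert, mem_singleton, not_or] at hi
        rw [if_neg hi.1, if_neg hi.2]
      rw [this, zero_mul]
    rw [h5, sum_pair hpq] at hsum
    have h6 : vec p q p.1 * vec (neg p) q' p.1 = -1 := by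
      unfold vec neg
      simp only [if_true]
      cases hb : p.2 <;> simp
    rw [h6] at hsum
    have h7 : vec p q q.1 = if q.2 then 1 else -1 := by
      unfold vec
      rw [if_neg hpq.symm, if_pos rfl]
    have h8 : vec (neg p) q' q.1 = if q.1 = q'.1 then (if q'.2 then 1 else -1) else 0 := by
      unfold vec
      rw [neg_fst, if_neg hpq.symm]
    rw [h7, h8] at hsum
    rcases q with ⟨i, b⟩
    rcases q' with ⟨i', b'⟩
    simp only at hsum
    by_cases hi : i = i'
    · subst hi
      cases b <;> cases b' <;> simp at hsum ⊢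
    · rw [if_neg hi] at hsum
      simp at hsum

end H46J
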