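import Mathlib
import Pool.Agent.H46.J.Minimal
import Pool.Agent.H46.J.Indep

set_option maxHeartbeats 4000000

namespace H46J

open Finset
open scoped Classical

lemma small_sets (N r : ℕ) :
    (univ.filter (fun X : Finset (Fin N) => X.card < r)).card ≤ (N + 1) ^ r := by
  have h1 : (univ : Finset (Fin r → Option (Fin N))).card = (N + 1) ^ r := by
    rw [card_univ, Fintype.card_fun, Fintype.card_option, Fintype.card_fin, Fintype.card_fin]
  rw [← h1]
  apply card_le_card_of_injOn (fun X => fun j : Fin r => X.toList[j.val]?)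
  · intro X _
    exact mem_coe.2 (mem_univ _)
  · have key : ∀ X : Finset (Fin N), X.card < r → ∀ x, x ∈ X ↔
        ∃ j : Fin r, X.toList[j.val]? = some x := by
      intro X hX x
      rw [← Finset.mem_toList, List.mem_iff_getElem?]
      constructor
      · rintro ⟨j, hj⟩
        have hj' : j < X.toList.length := by
          by_contra hcon
          rw [List.getElem?_eq_none (by omega)] at hj
          simp at hj
        rw [Finset.length_toList] at hj'
        exact ⟨⟨j, by omega⟩, hj⟩
      · rintro ⟨j, hj⟩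
        exact ⟨j.val, hj⟩
    intro X hX Y hY hXY
    simp only [coe_filter, mem_univ, true_and, Set.mem_ofPred_eq] at hX hY
    ext x
    rw [key X hX x, key Y hY x]
    have h2 : ∀ j : Fin r, X.toList[j.val]? = Y.toList[j.val]? := fun j => congrFun hXY j
    simp_rw [h2]

lemma bool_flip : ∀ b b' : Bool, b ≠ b' → b' = !b := by decide

section

variable {n N : ℕ} {c : Fin n × Bool → Fin n × Bool → Fin N}

/-- the strict colours of a signed point -/
noncomputable def T (c : Fin n × Bool → Fin n × Bool → Fin N) (i : Fin n) (b : Bool) :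
    Finset (Fin N) := univ.filter (fun x => Str c (i, b) x)

lemma mem_T {i : Fin n} {b : Bool} {x : Fin N} : x ∈ T c i b ↔ Str c (i, b) x := by
  unfold T; simp

lemma T_disj (i : Fin n) (b : Bool) : Disjoint (T c i b) (T c i (!b)) := by
  rw [disjoint_left]
  intro x hx hx'
  rw [mem_T] at hx hx'
  exact hx.2 hx'.1

/-- attached coordinates -/
def Att (c : Fin n × Bool → Fin n × Bool → Fin N) (i l : Fin n) : Prop :=
  i ≠ l ∧ ∃ s s', Used c (i, !s) (c (i, s) (l, s'))

lemma unatt (hc : Good c) {i l : Fin n} (hil : i ≠ l) (h1 : ¬ Att c i l) (h2 : ¬ Att c l i)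
    (s s' : Bool) : ∃ x, x ∈ T c i s ∧ x ∈ T c l s' := by
  refine ⟨c (i, s) (l, s'), ?_, ?_⟩
  · rw [mem_T]
    refine ⟨⟨(l, s'), hil, rfl⟩, ?_⟩
    intro h
    exact h1 ⟨hil, s, s', h⟩
  · rw [mem_T]
    have h3 := hc.symm (i, s) (l, s') hil
    refine ⟨⟨(i, s), hil.symm, h3.symm⟩, ?_⟩
    intro h
    rw [h3] at h
    exact h2 ⟨hil.symm, s', s, h⟩

lemma att_card (hc : Good c) (i : Fin n) (V : Finset (Fin n)) :
    (V.filter (fun l => Att c i l)).card ≤ N := by
  have huniq : ∀ l l' x, (∃ s s', i ≠ l ∧ c (i, s) (l, s') = x ∧ Used c (i, !s) x) →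
      (∃ s s', i ≠ l' ∧ c (i, s) (l', s') = x ∧ Used c (i, !s) x) → l = l' := by
    rintro l l' x ⟨s, s', hl, h1, h2⟩ ⟨t, t', hl', h3, h4⟩
    by_cases hst : t = !s
    · subst hst
      have := hc.rule (i, s) (l, s') (l', t') hl hl' (by rw [h1]; exact h3.symm)
      exact congrArg Prod.fst this
    · have hst' : t = s := by
        by_contra hne
        exact hst (bool_flip s t (fun h => hne h.symm))
      subst hst'
      obtain ⟨q, hq, hq2⟩ := h2
      have e1 := hc.rule (i, t) (l, s') q hl hq (by rw [h1]; exact hq2.symm)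
      have e2 := hc.rule (i, t) (l', t') q hl' hq (by rw [h3]; exact hq2.symm)
      rw [← e2] at e1
      exact congrArg Prod.fst e1
  have hex : ∀ l, ∃ x, Att c i l → (∃ s s', i ≠ l ∧ c (i, s) (l, s') = x ∧ Used c (i, !s) x) := by
    intro l
    by_cases h : Att c i l
    · obtain ⟨hil, s, s', hs⟩ := h
      exact ⟨c (i, s) (l, s'), fun _ => ⟨s, s', hil, rfl, hs⟩⟩
    · exact ⟨c (i, true) (i, true), fun h' => absurd h' h⟩
  choose f hf using hex
  have h1 : (univ : Finset (Fin N)).card = N := by rw [card_univ, Fintype.card_fin]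
  conv_rhs => rw [← h1]
  apply card_le_card_of_injOn f
  · intro x _
    exact mem_coe.2 (mem_univ _)
  · intro l hl l' hl' hll
    rw [mem_coe, mem_filter] at hl hl'
    have e1 := hf l hl.2
    have e2 := hf l' hl'.2
    rw [← hll] at e2
    exact huniq l l' _ e1 e2

/-- the family of sets attached to a signed point -/
noncomputable def Fam (c : Fin n × Bool → Fin n × Bool → Fin N) (i : Fin n) (b : Bool) :
    Finset (Finset (Fin N)) :=
  (powersetCard ((N - (T c i b ∪ T c i (!b)).card) / 2) (T c i b ∪ T c i (!b))ᶜ).image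
    (fun Y => T c i b ∪ Y)

lemma Fam_mem {i : Fin n} {b : Bool} {X : Finset (Fin N)} (hX : X ∈ Fam c i b) :
    T c i b ⊆ X ∧ Disjoint X (T c i (!b)) ∧
      X.card = (T c i b).card + (N - (T c i b ∪ T c i (!b)).card) / 2 := by
  unfold Fam at hX
  rw [mem_image] at hX
  obtain ⟨Y, hY, rfl⟩ := hX
  rw [mem_powersetCard] at hY
  have hYd : ∀ x ∈ Y, x ∉ T c i b ∧ x ∉ T c i (!b) := by
    intro x hx
    have := hY.1 hx
    rw [mem_compl, mem_union, not_or] at this
    exact this
  refine ⟨subset_union_left, ?_, ?_⟩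
  · rw [disjoint_left]
    intro x hx hx'
    rw [mem_union] at hx
    rcases hx with hx | hx
    · exact (disjoint_left.1 (T_disj i b) hx) hx'
    · exact (hYd x hx).2 hx'
  · rw [card_union_of_disjoint, hY.2]
    rw [disjoint_left]
    intro x hx hx'
    exact (hYd x hx').1 hx

lemma Fam_card (i : Fin n) (b : Bool) :
    (Fam c i b).card = (N - (T c i b ∪ T c i (!b)).card).choose
      ((N - (T c i b ∪ T c i (!b)).card) / 2) := by
  unfold Fam
  rw [card_image_of_injOn, card_powersetCard, card_compl, Fintype.card_fin]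
  intro Y hY Z hZ hYZ
  rw [mem_coe, mem_powersetCard] at hY hZ
  simp only at hYZ
  have aux : ∀ Y : Finset (Fin N), Y ⊆ (T c i b ∪ T c i (!b))ᶜ → Y = (T c i b ∪ Y) \ T c i b := by
    intro Y hY
    ext x
    rw [mem_sdiff, mem_union]
    constructor
    · intro hx
      have := hY hx
      rw [mem_compl, mem_union, not_or] at this
      exact ⟨Or.inr hx, this.1⟩
    · rintro ⟨h1 | h1, h2⟩
      · exact absurd h1 h2
      · exact h1
  rw [aux Y hY.1, aux Z hZ.1, hYZ]

theorem kneser_bound {r : ℕ} (hr : 1 ≤ r)
    (hr2 : ∀ g, r ≤ g → 3 * N + 1 ≤ g.choose (g / 2)) (hN : 0 < N)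
    (h : (signedKneser n 2 (-1)).Colorable N) :
    2 * n ≤ 4 * ((2 * N + 1) * (N + 1) ^ r) + N.choose (N / 2) := by
  obtain ⟨c, hc, hmin⟩ := exists_minimal (exists_good hN h)
  -- heavy coordinates
  have heavy : ∀ b : Bool, (univ.filter (fun i => (T c i b).card < r)).card ≤
      (2 * N + 1) * (N + 1) ^ r := by
    intro b
    obtain ⟨I, hI1, hI2, hI3⟩ := exists_indep (fun i l => Att c i l) N
      (univ.filter (fun i => (T c i b).card < r)) (fun i _ => att_card hc i _)
    refine le_trans hI3 (Nat.mul_le_mul_left _ ?_)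
    refine le_trans ?_ (small_sets N r)
    apply card_le_card_of_injOn (fun i => T c i b)
    · intro i hi
      have := hI1 hi
      rw [mem_filter] at this
      simp only [coe_filter, mem_univ, true_and, Set.mem_ofPred_eq]
      exact this.2
    · intro i hi l hl hil
      by_contra hne
      obtain ⟨x, hx1, hx2⟩ := unatt hc hne (hI2 i hi l hl hne) (hI2 l hl i hi (Ne.symm hne))
        b (!b)
      simp only at hil
      rw [hil] at hx1
      exact (disjoint_left.1 (T_disj l b) hx1) hx2
  -- the light coordinates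
  set V : Finset (Fin n) := univ.filter (fun i => ∀ b, r ≤ (T c i b).card) with hV
  set V1 : Finset (Fin n) := V.filter (fun i => ∃ l ∈ V, Att c i l) with hV1
  set V0 : Finset (Fin n) := V.filter (fun i => ¬ ∃ l ∈ V, Att c i l) with hV0
  have hV01 : V1.card + V0.card = V.card := card_filter_add_card_filter_not _
  obtain ⟨I1, hI1, hI1i, hI1c⟩ := exists_indep (fun i l => Att c i l) N V1
    (fun i _ => att_card hc i _)
  set I0 : Finset (Fin n) := V0.filter (fun l => ∀ i ∈ I1, ¬ Att c i l) with hI0
  have hI0c : V0.card ≤ I0.card + I1.card * N := by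
    have h1 : V0 ⊆ I0 ∪ I1.biUnion (fun i => V0.filter (fun l => Att c i l)) := by
      intro l hl
      by_cases h2 : ∀ i ∈ I1, ¬ Att c i l
      · apply mem_union_left
        rw [hI0, mem_filter]
        exact ⟨hl, h2⟩
      · push Not at h2
        obtain ⟨i, hi, hil⟩ := h2
        apply mem_union_right
        rw [mem_biUnion]
        exact ⟨i, hi, mem_filter.2 ⟨hl, hil⟩⟩
    refine le_trans (card_le_card h1) (le_trans (card_union_le _ _) ?_)
    apply Nat.add_le_add_left
    exact card_biUnion_le_card_mul _ _ _ (fun i _ => att_card hc i _)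
  have hdisj01 : Disjoint I0 I1 := by
    rw [disjoint_left]
    intro i hi hi'
    rw [hI0, mem_filter, hV0, mem_filter] at hi
    have := hI1 hi'
    rw [hV1, mem_filter] at this
    exact hi.1.2 this.2
  have hJV : ∀ i ∈ I0 ∪ I1, i ∈ V := by
    intro i hi
    rw [mem_union] at hi
    rcases hi with hi | hi
    · rw [hI0, mem_filter, hV0, mem_filter] at hi
      exact hi.1.1
    · have := hI1 hi
      rw [hV1, mem_filter] at this
      exact this.1
  have hJ : ∀ i ∈ I0 ∪ I1, ∀ l ∈ I0 ∪ I1, i ≠ l → ¬ Att c i l := by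
    intro i hi l hl hil hatt
    have hlV := hJV l hl
    rw [mem_union] at hi hl
    rcases hi with hi | hi
    · rw [hI0, mem_filter, hV0, mem_filter] at hi
      exact hi.1.2 ⟨l, hlV, hatt⟩
    · rcases hl with hl | hl
      · rw [hI0, mem_filter] at hl
        exact hl.2 i hi hatt
      · exact hI1i i hi l hl hil hatt
  -- incomparability
  have hinc : ∀ i ∈ I0 ∪ I1, ∀ l ∈ I0 ∪ I1, ∀ b b' : Bool, (i, b) ≠ (l, b') →
      ∀ X ∈ Fam c i b, ∀ Y ∈ Fam c l b', ¬ X ⊆ Y := by
    intro i hi l hl b b' hne X hX Y hY hXY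
    obtain ⟨hX1, hX2, hX3⟩ := Fam_mem hX
    obtain ⟨hY1, hY2, hY3⟩ := Fam_mem hY
    by_cases hil : i = l
    · subst hil
      have hbb : b' = !b := bool_flip b b' (fun h => hne (by rw [h]))
      subst hbb
      rw [Bool.not_not] at hY2
      have h1 : r ≤ (T c i b).card := by
        have := hJV i hi
        rw [hV, mem_filter] at this
        exact this.2 b
      obtain ⟨x, hx⟩ : (T c i b).Nonempty := by
        rw [← card_pos]; omega
      exact (disjoint_left.1 hY2 (hXY (hX1 hx))) hx
    · obtain ⟨x, hx1, hx2⟩ := unatt hc hil (hJ i hi l hl hil) (hJ l hl i hi (Ne.symm hil))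
        b (!b')
      exact (disjoint_left.1 hY2 (hXY (hX1 hx1))) hx2
  set 𝒜 : Finset (Finset (Fin N)) :=
    ((I0 ∪ I1) ×ˢ (univ : Finset Bool)).biUnion (fun p => Fam c p.1 p.2) with h𝒜
  have hanti : IsAntichain (· ⊆ ·) (𝒜 : Set (Finset (Fin N))) := by
    intro X hX Y hY hne hXY
    rw [mem_coe, h𝒜, mem_biUnion] at hX hY
    obtain ⟨⟨i, b⟩, hib, hX⟩ := hX
    obtain ⟨⟨l, b'⟩, hlb, hY⟩ := hY
    rw [mem_product] at hib hlb
    simp only at hX hY hib hlb
    by_cases heq : (i, b) = (l, b')
    · rw [Prod.mk.injEq] at heq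
      obtain ⟨rfl, rfl⟩ := heq
      apply hne
      apply eq_of_subset_of_card_le hXY
      rw [(Fam_mem hX).2.2, (Fam_mem hY).2.2]
    · exact hinc i hib.1 l hlb.1 b b' heq X hX Y hY hXY
  have hsperner := hanti.sperner
  rw [Fintype.card_fin] at hsperner
  have hcard : 𝒜.card = ∑ p ∈ (I0 ∪ I1) ×ˢ (univ : Finset Bool), (Fam c p.1 p.2).card := by
    rw [h𝒜]
    apply card_biUnion
    rintro ⟨i, b⟩ hib ⟨l, b'⟩ hlb hne
    rw [mem_coe, mem_product] at hib hlb
    change Disjoint (Fam c i b) (Fam c l b')
    rw [disjoint_left]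
    intro X hX hX'
    exact hinc i hib.1 l hlb.1 b b' hne X hX X hX' Subset.rfl
  have hone : ∀ i b, 1 ≤ (Fam c i b).card := by
    intro i b
    rw [Fam_card]
    exact Nat.choose_pos (Nat.div_le_self _ _)
  have hbig : ∀ i ∈ I1, ∀ b, 3 * N + 1 ≤ (Fam c i b).card := by
    intro i hi b
    rw [Fam_card]
    apply hr2
    have h1 := hI1 hi
    rw [hV1, mem_filter] at h1
    obtain ⟨_, l, hlV, hil, s, s', hs⟩ := h1
    have h2 : r ≤ (T c l s').card := by
      rw [hV, mem_filter] at hlV
      exact hlV.2 s'
    have h3 : Disjoint (T c i b ∪ T c i (!b)) (T c l s') := by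
      rw [disjoint_left]
      intro y hy hy'
      rw [mem_T] at hy'
      have h4 := hmin (i, s) (l, s') _ hil rfl hs y hy'
      rw [mem_union, mem_T, mem_T] at hy
      have h5 : neg (i, s) = (i, !s) := rfl
      rw [h5] at h4
      by_cases hbs : b = s
      · subst hbs
        rcases hy with hy | hy
        · exact h4.1 hy
        · exact h4.2 hy
      · have hbs' : b = !s := bool_flip s b (fun h => hbs h.symm)
        subst hbs'
        rw [Bool.not_not] at hy
        rcases hy with hy | hy
        · exact h4.2 hy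
        · exact h4.1 hy
    have h4 : (T c i b ∪ T c i (!b)).card + (T c l s').card ≤ N := by
      rw [← card_union_of_disjoint h3]
      have := card_le_univ ((T c i b ∪ T c i (!b)) ∪ T c l s')
      rwa [Fintype.card_fin] at this
    omega
  have hsum : 2 * I0.card + 2 * (3 * N + 1) * I1.card ≤
      ∑ p ∈ (I0 ∪ I1) ×ˢ (univ : Finset Bool), (Fam c p.1 p.2).card := by
    rw [sum_product, sum_union hdisj01]
    apply Nat.add_le_add
    · calc 2 * I0.card = ∑ i ∈ I0, 2 := by rw [sum_const, smul_eq_mul, mul_comm]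
        _ ≤ _ := by
          apply sum_le_sum
          intro i _
          rw [Fintype.sum_bool]
          dsimp only
          have h1 := hone i true
          have h2 := hone i false
          omega
    · calc 2 * (3 * N + 1) * I1.card = ∑ i ∈ I1, 2 * (3 * N + 1) := by
            rw [sum_const, smul_eq_mul, mul_comm]
        _ ≤ _ := by
          apply sum_le_sum
          intro i hi
          rw [Fintype.sum_bool]
          dsimp only
          have h1 := hbig i hi true
          have h2 := hbig i hi false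
          omega
  -- conclusion
  have htot : n ≤ (univ.filter (fun i => (T c i true).card < r)).card +
      (univ.filter (fun i => (T c i false).card < r)).card + V.card := by
    have h1 : (univ : Finset (Fin n)) ⊆ (univ.filter (fun i => (T c i true).card < r) ∪
        univ.filter (fun i => (T c i false).card < r)) ∪ V := by
      intro i _
      by_cases h1 : (T c i true).card < r
      · apply mem_union_left; apply mem_union_left; simpa using h1
      · by_cases h2 : (T c i false).card < r
        · apply mem_union_left; apply mem_union_right; simpa using h2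
        · apply mem_union_right
          rw [hV, mem_filter]
          refine ⟨mem_univ _, ?_⟩
          intro b
          cases b
          · omega
          · omega
    have h2 := card_le_card h1
    rw [card_univ, Fintype.card_fin] at h2
    refine le_trans h2 (le_trans (card_union_le _ _) ?_)
    exact Nat.add_le_add_right (card_union_le _ _) _
  have e1 := heavy true
  have e2 := heavy false
  rw [hcard] at hsperner
  have e3 : 2 * (3 * N + 1) * I1.card = 2 * ((2 * N + 1) * I1.card) + 2 * (I1.card * N) := by ring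
  generalize hM : (2 * N + 1) * (N + 1) ^ r = M at *
  generalize hM1 : (2 * N + 1) * I1.card = M1 at *
  generalize hM2 : I1.card * N = M2 at *
  omega

end

end H46J
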