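import Mathlib
import Pool.Agent.H46.J.Defs

set_option maxHeartbeats 4000000

namespace H46J

open Finset

/-- the `h`-subsets of `Fin (2h)` -/
abbrev HSub (h : ℕ) : Type := {A : Finset (Fin (2 * h)) // A.card = h}

lemma card_HSub (h : ℕ) : Fintype.card (HSub h) = Nat.centralBinom h := by
  rw [Fintype.card_finset_len, Fintype.card_fin, Nat.centralBinom_eq_two_mul_choose]

/-- coherent with the colour `c` -/
def Coh {h n : ℕ} (A : Fin n → HSub h) (v : Fin n → ℤ) (c : Fin (2 * h)) : Prop :=
  ∀ i, v i ≠ 0 → (c ∈ (A i).1 ↔ v i = 1)

lemma incoh {h n : ℕ} {A : Fin n → HSub h} (hA : Function.Injective A) (v : Vtx n 2)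
    (hv : ¬ ∃ c, Coh A v.1 c) :
    ∃ a b, {i | v.1 i ≠ 0} = {a, b} ∧ a ≠ b ∧ (A b).1 = (A a).1ᶜ ∧ v.1 b = v.1 a := by
  classical
  obtain ⟨v, hv1, hv2⟩ := v
  simp only at hv ⊢
  obtain ⟨a, b, hab, hset⟩ := Set.ncard_eq_two.1 hv2
  have ha : v a ≠ 0 := by
    have : a ∈ {i | v i ≠ 0} := by rw [hset]; simp
    exact this
  have hb : v b ≠ 0 := by
    have : b ∈ {i | v i ≠ 0} := by rw [hset]; simp
    exact this
  have hne : (A a).1 ≠ (A b).1 := fun h => hab (hA (Subtype.ext h))
  have hcoh : ∀ c, ¬ ((c ∈ (A a).1 ↔ v a = 1) ∧ (c ∈ (A b).1 ↔ v b = 1)) := by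
    intro c hc
    apply hv
    refine ⟨c, ?_⟩
    intro i hi
    have : i ∈ ({a, b} : Set (Fin n)) := by rw [← hset]; exact hi
    rcases this with rfl | h
    · exact hc.1
    · rw [Set.mem_singleton_iff] at h
      subst h
      exact hc.2
  have hcard : ∀ X Y : Finset (Fin (2 * h)), X.card = h → Y.card = h → Disjoint X Y → Y = Xᶜ := by
    intro X Y hX hY hXY
    apply eq_of_subset_of_card_le
    · intro x hx
      rw [mem_compl]
      intro hx'
      exact (disjoint_left.1 hXY hx') hx
    · rw [card_compl, Fintype.card_fin]; omega
  have hc1 : ((A a).1ᶜ).card = h := by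
    rw [card_compl, Fintype.card_fin, (A a).2]; omega
  have hc2 : ((A b).1ᶜ).card = h := by
    rw [card_compl, Fintype.card_fin, (A b).2]; omega
  have key : (A b).1 = (A a).1ᶜ ∧ v b = v a := by
    rcases hv1 a with h1 | h1 | h1
    · rcases hv1 b with h2 | h2 | h2
      · refine ⟨?_, by rw [h1, h2]⟩
        have h3 := hcard _ _ hc1 hc2 (by
          rw [disjoint_left]
          intro c hc hc'
          rw [mem_compl] at hc hc'
          apply hcoh c
          rw [h1, h2]
          exact ⟨by simp [hc], by simp [hc']⟩)
        exact compl_injective h3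
      · exact absurd h2 hb
      · exfalso
        have h3 := hcard _ _ hc1 (A b).2 (by
          rw [disjoint_left]
          intro c hc hc'
          rw [mem_compl] at hc
          apply hcoh c
          rw [h1, h2]
          exact ⟨by simp [hc], by simp [hc']⟩)
        rw [compl_compl] at h3
        exact hne h3.symm
    · exact absurd h1 ha
    · rcases hv1 b with h2 | h2 | h2
      · exfalso
        have h3 := hcard _ _ (A a).2 hc2 (by
          rw [disjoint_left]
          intro c hc hc'
          rw [mem_compl] at hc'
          apply hcoh c
          rw [h1, h2]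
          exact ⟨by simp [hc], by simp [hc']⟩)
        exact hne (compl_injective h3).symm
      · exact absurd h2 hb
      · refine ⟨?_, by rw [h1, h2]⟩
        exact hcard _ _ (A a).2 (A b).2 (by
          rw [disjoint_left]
          intro c hc hc'
          apply hcoh c
          rw [h1, h2]
          exact ⟨by simp [hc], by simp [hc']⟩)
  exact ⟨a, b, hset, hab, key.1, key.2⟩

/-- the upper bound for the Johnson graph -/
theorem johnson_colorable {h n : ℕ} (hn : n ≤ Nat.centralBinom h) :
    (signedJohnson n 2 (-1)).Colorable (2 * h + 1) := by
  classical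
  obtain ⟨A, hA⟩ : ∃ A : Fin n → HSub h, Function.Injective A := by
    have hcard : Fintype.card (Fin n) ≤ Fintype.card (HSub h) := by
      rw [card_HSub, Fintype.card_fin]; exact hn
    obtain ⟨f⟩ := Function.Embedding.nonempty_of_card_le hcard
    exact ⟨f, f.injective⟩
  -- symmetric vectors
  have hinv : ∀ v : Vtx n 2, (¬ ∃ c, Coh A v.1 c) → ∀ i j, (A j).1 = (A i).1ᶜ →
      v.1 i ≠ 0 → v.1 j = v.1 i := by
    intro v hv i j hij hi
    obtain ⟨a, b, h1, h2, h3, h4⟩ := incoh hA v hv
    have : i ∈ ({a, b} : Set (Fin n)) := by rw [← h1]; exact hi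
    rcases this with h5 | h5
    · subst h5
      have h6 : j = b := hA (Subtype.ext (by rw [hij, h3]))
      rw [h6]; exact h4
    · rw [Set.mem_singleton_iff] at h5
      subst h5
      have h6 : j = a := hA (Subtype.ext (by rw [hij, h3, compl_compl]))
      rw [h6]; exact h4.symm
  have hcol : (signedJohnson n 2 (-1)).Coloring (Option (Fin (2 * h))) := by
    refine SimpleGraph.Coloring.mk
      (fun v => if hv : ∃ c, Coh A v.1 c then some hv.choose else none) ?_
    intro u v huv heq
    obtain ⟨hne, hsum⟩ := huv
    by_cases hu : ∃ c, Coh A u.1 c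
    · by_cases hv : ∃ c, Coh A v.1 c
      · simp only [dif_pos hu, dif_pos hv, Option.some.injEq] at heq
        have h1 := hu.choose_spec
        have h2 := hv.choose_spec
        rw [← heq] at h2
        have h3 : 0 ≤ ∑ i, u.1 i * v.1 i := by
          apply sum_nonneg
          intro i _
          by_cases hui : u.1 i = 0
          · rw [hui, zero_mul]
          · by_cases hvi : v.1 i = 0
            · rw [hvi, mul_zero]
            · have h4 := h1 i hui
              have h5 := h2 i hvi
              have h6 := u.2.1 i
              have h7 := v.2.1 i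
              rcases h6 with h6 | h6 | h6
              · rcases h7 with h7 | h7 | h7
                · rw [h6, h7]; norm_num
                · exact absurd h7 hvi
                · exfalso
                  have h8 := h4.1 (h5.2 h7)
                  rw [h6] at h8
                  norm_num at h8
              · exact absurd h6 hui
              · rcases h7 with h7 | h7 | h7
                · exfalso
                  have h8 := h5.1 (h4.2 h6)
                  rw [h7] at h8
                  norm_num at h8
                · exact absurd h7 hvi
                · rw [h6, h7]; norm_num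
        rw [hsum] at h3
        norm_num at h3
      · simp only [dif_pos hu, dif_neg hv] at heq
        exact absurd heq (by simp)
    · by_cases hv : ∃ c, Coh A v.1 c
      · simp only [dif_neg hu, dif_pos hv] at heq
        exact absurd heq (by simp)
      · obtain ⟨a, b, h1, h2, h3, h4⟩ := incoh hA u hu
        have h5 : ∑ i, u.1 i * v.1 i = ∑ i ∈ ({a, b} : Finset _), u.1 i * v.1 i := by
          symm
          apply sum_subset (subset_univ _)
          intro i _ hi
          have : u.1 i = 0 := by
            by_contra hcon
            have : i ∈ ({a, b} : Set (Fin n)) := by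
              rw [← h1]; exact hcon
            apply hi
            simpa using this
          rw [this, zero_mul]
        have h6 : v.1 b = v.1 a := by
          by_cases hva : v.1 a = 0
          · rw [hva]
            by_contra hvb
            have := hinv v hv b a (by rw [h3, compl_compl]) hvb
            exact hvb (by rw [← this, hva])
          · exact hinv v hv a b h3 hva
        rw [h5, sum_pair h2, h4, h6] at hsum
        omega
  have := hcol.colorable
  rwa [Fintype.card_option, Fintype.card_fin] at this

end H46J
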