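import Mathlib
import Pool.Agent.H46.J.Bound
import Pool.Agent.H46.J.Upper

set_option maxHeartbeats 4000000

namespace H46J

lemma two_pow_le_centralBinom (m : ℕ) : 2 ^ m ≤ Nat.centralBinom m := by
  rcases Nat.eq_zero_or_pos m with rfl | hm
  · simp
  · have h1 := Nat.four_pow_le_two_mul_self_mul_centralBinom m hm
    have h2 : 2 * m ≤ 2 ^ m := by
      clear h1
      induction m with
      | zero => omega
      | succ k ih =>
        rcases Nat.eq_zero_or_pos k with rfl | hk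
        · norm_num
        · have := ih hk
          rw [pow_succ]
          omega
    have h3 : 2 ^ m * 2 ^ m ≤ 2 ^ m * Nat.centralBinom m := by
      calc 2 ^ m * 2 ^ m = 4 ^ m := by rw [← mul_pow]; norm_num
        _ ≤ 2 * m * Nat.centralBinom m := h1
        _ ≤ 2 ^ m * Nat.centralBinom m := Nat.mul_le_mul_right _ h2
    exact Nat.le_of_mul_le_mul_left h3 (by positivity)

lemma two_pow_half_le (g : ℕ) : 2 ^ (g / 2) ≤ g.choose (g / 2) := by
  obtain ⟨m, hm⟩ : ∃ m, m = g / 2 := ⟨_, rfl⟩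
  rw [← hm]
  have h1 := two_pow_le_centralBinom m
  rw [Nat.centralBinom_eq_two_mul_choose] at h1
  refine le_trans h1 (Nat.choose_le_choose m (by omega))

lemma exp_bound (u : ℕ) (hu : 8 ≤ u) : 2 * u ^ 2 + 15 * u + 25 < 2 ^ (u + 1) := by
  induction u, hu using Nat.le_induction with
  | base => norm_num
  | succ k hk ih =>
    have h1 : 2 ^ (k + 1 + 1) = 2 * 2 ^ (k + 1) := by ring
    rw [h1]
    nlinarith

theorem kneser_not_colorable {h n : ℕ} (hh : 256 ≤ h)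
    (hn : (4 * h + 3) * Nat.centralBinom h ≤ (4 * h + 4) * n) :
    ¬ (signedKneser n 2 (-1)).Colorable (2 * h + 1) := by
  intro hcol
  obtain ⟨u, hu⟩ : ∃ u, u = Nat.log 2 h := ⟨_, rfl⟩
  have hu1 : 2 ^ u ≤ h := by rw [hu]; exact Nat.pow_log_le_self 2 (by omega)
  have hu2 : h < 2 ^ (u + 1) := by rw [hu]; exact Nat.lt_pow_succ_log_self (by norm_num) h
  have hu8 : 8 ≤ u := by
    rw [hu]
    exact Nat.le_log_of_pow_le (by norm_num) (by omega)
  have p1 : 2 ^ (u + 1) = 2 * 2 ^ u := by rw [pow_succ]; ring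
  have p2 : 2 ^ (u + 2) = 4 * 2 ^ u := by rw [pow_add]; ring
  have p3 : 2 ^ (u + 3) = 8 * 2 ^ u := by rw [pow_add]; ring
  have p4 : 2 ^ (u + 4) = 16 * 2 ^ u := by rw [pow_add]; ring
  have hr2 : ∀ g, 2 * u + 8 ≤ g → 3 * (2 * h + 1) + 1 ≤ g.choose (g / 2) := by
    intro g hg
    refine le_trans ?_ (two_pow_half_le g)
    have h1 : 2 ^ (u + 4) ≤ 2 ^ (g / 2) := Nat.pow_le_pow_right (by norm_num) (by omega)
    omega
  have h1 := kneser_bound (by omega) hr2 (by omega) hcol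
  have h2 : (2 * h + 1) / 2 = h := by omega
  rw [h2] at h1
  have h3 := Nat.choose_mul_succ_eq (2 * h) h
  rw [← Nat.centralBinom_eq_two_mul_choose] at h3
  have h4 : 2 * h + 1 - h = h + 1 := by omega
  rw [h4] at h3
  obtain ⟨m, hm⟩ : ∃ m, m = Nat.centralBinom h := ⟨_, rfl⟩
  obtain ⟨M, hM⟩ : ∃ M, M = (2 * (2 * h + 1) + 1) * (2 * h + 1 + 1) ^ (2 * u + 8) := ⟨_, rfl⟩
  obtain ⟨B, hB⟩ : ∃ B, B = (2 * h + 1).choose h := ⟨_, rfl⟩
  rw [← hm, ← hB] at h3
  rw [← hM, ← hB] at h1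
  rw [← hm] at hn
  have h5 : m ≤ (h + 1) * (8 * M) := by
    have h6 : (h + 1) * (4 * n) ≤ (h + 1) * (2 * (4 * M + B)) := Nat.mul_le_mul_left _ (by omega)
    have h7 : (h + 1) * (2 * (4 * M + B)) = (h + 1) * (8 * M) + 2 * (m * (2 * h + 1)) := by
      rw [h3]; ring
    rw [h7] at h6
    nlinarith
  have h6 := Nat.four_pow_le_two_mul_self_mul_centralBinom h (by omega)
  rw [← hm] at h6
  -- upper bound of the right-hand side
  have b1 : 2 * h ≤ 2 ^ (u + 2) := by omega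
  have b2 : h + 1 ≤ 2 ^ (u + 1) := by omega
  have b3 : 2 * (2 * h + 1) + 1 ≤ 2 ^ (u + 3) := by omega
  have b4 : 2 * h + 1 + 1 ≤ 2 ^ (u + 2) := by omega
  have b5 : M ≤ 2 ^ (u + 3) * (2 ^ (u + 2)) ^ (2 * u + 8) := by
    rw [hM]
    exact Nat.mul_le_mul b3 (Nat.pow_le_pow_left b4 _)
  have b6 : 4 ^ h ≤ 2 ^ (2 * u ^ 2 + 15 * u + 25) := by
    calc 4 ^ h ≤ 2 * h * m := h6
      _ ≤ 2 ^ (u + 2) * (2 ^ (u + 1) * (8 * (2 ^ (u + 3) * (2 ^ (u + 2)) ^ (2 * u + 8)))) := by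
        apply Nat.mul_le_mul b1
        refine le_trans h5 ?_
        apply Nat.mul_le_mul b2
        exact Nat.mul_le_mul_left _ b5
      _ = 2 ^ (2 * u ^ 2 + 15 * u + 25) := by
        rw [← pow_mul, show (8:ℕ) = 2 ^ 3 by norm_num, ← pow_add, ← pow_add, ← pow_add, ← pow_add]
        congr 1
        ring
  have b7 : 2 ^ (2 ^ (u + 1)) ≤ (4:ℕ) ^ h := by
    rw [show (4:ℕ) = 2 ^ 2 by norm_num, ← pow_mul]
    apply Nat.pow_le_pow_right (by norm_num)
    omega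
  have b8 := (Nat.pow_le_pow_iff_right (by norm_num : 1 < 2)).1 (le_trans b7 b6)
  have b9 := exp_bound u hu8
  omega

theorem main (h n : ℕ) (hh : 256 ≤ h)
    (h1 : (4 * h + 3) * Nat.centralBinom h ≤ (4 * h + 4) * n) (h2 : n ≤ Nat.centralBinom h) :
    (signedJohnson n 2 (-1)).chromaticNumber ≤ (2 * h + 1 : ℕ) ∧
      ((2 * h + 1 : ℕ) : ℕ∞) < (signedKneser n 2 (-1)).chromaticNumber := by
  refine ⟨(johnson_colorable h2).chromaticNumber_le, not_le.1 ?_⟩
  rw [SimpleGraph.chromaticNumber_le_iff_colorable]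
  exact kneser_not_colorable hh h1

end H46J
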